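import Mathlib

/-!
# A two-scale form of the weak regularity lemma

`avg F ρ` is the average of `F` over the cells of a labelling `ρ`; `stp F π` is the average of
`F : V → V → ℝ` over the pairs of cells of `π : V → ℕ`. The theorem `strong`: `F` is the sum of the
function `stp F π` for a labelling `π` with at most `M` labels, a function which is small in mean, and
a function with cut norm at most `φ M`, for an arbitrary positive function `φ` given in advance; the
number `M` is bounded in terms of `ε` and `φ`.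
-/

set_option autoImplicit false

namespace Pool.Agent.H62.BR

open Finset

section avg

variable {X κ : Type*} [Fintype X] [DecidableEq κ]

/-- The average of `F` over the cell of `p`. -/
noncomputable def avg (F : X → ℝ) (ρ : X → κ) (p : X) : ℝ :=
  (∑ q ∈ univ.filter (fun q => ρ q = ρ p), F q) / ((univ.filter (fun q => ρ q = ρ p)).card : ℝ)

lemma avg_congr (F : X → ℝ) (ρ : X → κ) {p q : X} (h : ρ p = ρ q) : avg F ρ p = avg F ρ q := by
  unfold avg
  rw [h]

lemma cell_pos (ρ : X → κ) (p : X) : 0 < ((univ.filter (fun q => ρ q = ρ p)).card : ℝ) := by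
  have : 0 < (univ.filter (fun q => ρ q = ρ p)).card := card_pos.2 ⟨p, by simp⟩
  exact_mod_cast this

lemma avg_inner (F g : X → ℝ) (ρ : X → κ) (hg : ∀ p q, ρ p = ρ q → g p = g q) :
    ∑ p, avg F ρ p * g p = ∑ p, F p * g p := by
  have h1 : ∀ p, avg F ρ p * g p = ∑ q, if ρ q = ρ p then
      F q * g q / ((univ.filter (fun q' => ρ q' = ρ q)).card : ℝ) else 0 := by
    intro p
    unfold avg
    rw [div_mul_eq_mul_div, Finset.sum_mul, Finset.sum_div, Finset.sum_filter]
    refine sum_congr rfl fun q _ => ?_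
    split_ifs with h
    · rw [hg q p h, h]
    · rfl
  simp_rw [h1]
  rw [sum_comm]
  refine sum_congr rfl fun q _ => ?_
  rw [← Finset.sum_filter, sum_const, nsmul_eq_mul]
  have h2 : (univ.filter (fun p => ρ q = ρ p)) = univ.filter (fun q' => ρ q' = ρ q) := by
    ext p
    simp [eq_comm]
  rw [h2]
  have := cell_pos ρ q
  field_simp

lemma avg_nonneg {F : X → ℝ} (hF : ∀ p, 0 ≤ F p) (ρ : X → κ) (p : X) : 0 ≤ avg F ρ p :=
  div_nonneg (sum_nonneg fun q _ => hF q) (cell_pos ρ p).le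

lemma avg_le_one {F : X → ℝ} (hF : ∀ p, F p ≤ 1) (ρ : X → κ) (p : X) : avg F ρ p ≤ 1 := by
  unfold avg
  rw [div_le_one (cell_pos ρ p)]
  calc (∑ q ∈ univ.filter (fun q => ρ q = ρ p), F q)
      ≤ ∑ q ∈ univ.filter (fun q => ρ q = ρ p), (1 : ℝ) := sum_le_sum fun q _ => hF q
    _ = _ := by simp

lemma energy (F : X → ℝ) {κ' : Type*} [DecidableEq κ'] (ρ : X → κ) (ρ' : X → κ')
    (h : ∀ p q, ρ' p = ρ' q → ρ p = ρ q) :
    ∑ p, (avg F ρ' p - avg F ρ p) ^ 2 = ∑ p, avg F ρ' p ^ 2 - ∑ p, avg F ρ p ^ 2 := by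
  have h1 : ∑ p, avg F ρ' p * avg F ρ p = ∑ p, F p * avg F ρ p :=
    avg_inner F _ ρ' fun p q hpq => avg_congr F ρ (h p q hpq)
  have h2 : ∑ p, avg F ρ p * avg F ρ p = ∑ p, F p * avg F ρ p :=
    avg_inner F _ ρ fun p q hpq => avg_congr F ρ hpq
  have h3 : ∑ p, (avg F ρ' p - avg F ρ p) ^ 2 =
      ∑ p, avg F ρ' p ^ 2 - 2 * ∑ p, avg F ρ' p * avg F ρ p + ∑ p, avg F ρ p * avg F ρ p := by
    rw [mul_sum, ← sum_sub_distrib, ← sum_add_distrib]
    exact sum_congr rfl fun p _ => by ring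
  have h4 : ∑ p, avg F ρ p ^ 2 = ∑ p, avg F ρ p * avg F ρ p :=
    sum_congr rfl fun p _ => by ring
  rw [h3, h1, ← h2, h4]
  ring

end avg

variable {V : Type*} [Fintype V]

/-- The average of `F` over the pairs of cells of `π`. -/
noncomputable def stp (F : V → V → ℝ) (π : V → ℕ) (x y : V) : ℝ :=
  avg (fun p : V × V => F p.1 p.2) (fun p : V × V => (π p.1, π p.2)) (x, y)

lemma stp_congr (F : V → V → ℝ) (π : V → ℕ) {x y x' y' : V} (hx : π x = π x') (hy : π y = π y') :
    stp F π x y = stp F π x' y' := by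
  unfold stp
  exact avg_congr _ _ (by simp [hx, hy])

lemma stp_nonneg {F : V → V → ℝ} (hF : ∀ x y, 0 ≤ F x y) (π : V → ℕ) (x y : V) :
    0 ≤ stp F π x y :=
  avg_nonneg (F := fun p : V × V => F p.1 p.2) (fun p => hF p.1 p.2) _ _

lemma stp_le_one {F : V → V → ℝ} (hF : ∀ x y, F x y ≤ 1) (π : V → ℕ) (x y : V) :
    stp F π x y ≤ 1 :=
  avg_le_one (F := fun p : V × V => F p.1 p.2) (fun p => hF p.1 p.2) _ _

lemma stp_symm {F : V → V → ℝ} (hF : ∀ x y, F x y = F y x) (π : V → ℕ) (x y : V) :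
    stp F π x y = stp F π y x := by
  classical
  unfold stp avg
  have hbij : ∀ G : V × V → ℝ, (∑ q ∈ univ.filter (fun q : V × V => (π q.1, π q.2) = (π x, π y)), G q) =
      ∑ q ∈ univ.filter (fun q : V × V => (π q.1, π q.2) = (π y, π x)), G q.swap := by
    intro G
    refine sum_nbij' Prod.swap Prod.swap ?_ ?_ ?_ ?_ ?_
    · rintro ⟨a, b⟩ h
      simp only [mem_filter, mem_univ, true_and, Prod.mk.injEq, Prod.swap] at h ⊢
      exact ⟨h.2, h.1⟩
    · rintro ⟨a, b⟩ h
      simp only [mem_filter, mem_univ, true_and, Prod.mk.injEq, Prod.swap] at h ⊢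
      exact ⟨h.2, h.1⟩
    · rintro ⟨a, b⟩ _; rfl
    · rintro ⟨a, b⟩ _; rfl
    · rintro ⟨a, b⟩ _; rfl
  have h1 := hbij (fun p => F p.1 p.2)
  have h2 := hbij (fun _ => 1)
  simp only [sum_const, nsmul_eq_mul, mul_one] at h2
  dsimp only
  rw [h2, h1]
  congr 1
  refine sum_congr rfl fun p _ => ?_
  exact hF _ _

/-- The energy of `π`. -/
noncomputable def en (F : V → V → ℝ) (π : V → ℕ) : ℝ := ∑ p : V × V, stp F π p.1 p.2 ^ 2

lemma en_le {F : V → V → ℝ} (h0 : ∀ x y, 0 ≤ F x y) (h1 : ∀ x y, F x y ≤ 1) (π : V → ℕ) :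
    en F π ≤ (Fintype.card V : ℝ) ^ 2 := by
  unfold en
  calc ∑ p : V × V, stp F π p.1 p.2 ^ 2 ≤ ∑ p : V × V, (1 : ℝ) := by
        refine sum_le_sum fun p _ => ?_
        exact pow_le_one₀ (stp_nonneg h0 π _ _) (stp_le_one h1 π _ _)
    _ = _ := by simp [sq]

lemma en_nonneg (F : V → V → ℝ) (π : V → ℕ) : 0 ≤ en F π := sum_nonneg fun _ _ => sq_nonneg _

lemma en_sub (F : V → V → ℝ) (π π' : V → ℕ) (h : ∀ x y, π' x = π' y → π x = π y) :
    ∑ p : V × V, (stp F π' p.1 p.2 - stp F π p.1 p.2) ^ 2 = en F π' - en F π := by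
  unfold en stp
  refine energy (fun p : V × V => F p.1 p.2) (fun p : V × V => (π p.1, π p.2))
    (fun p : V × V => (π' p.1, π' p.2)) ?_
  intro p q hpq
  simp only [Prod.mk.injEq] at hpq ⊢
  exact ⟨h _ _ hpq.1, h _ _ hpq.2⟩

/-- Small cut norm. -/
def Cut (R : V → V → ℝ) (ε : ℝ) : Prop :=
  ∀ S T : Finset V, |∑ x ∈ S, ∑ y ∈ T, R x y| ≤ ε * (Fintype.card V : ℝ) ^ 2

lemma refine_step [DecidableEq V] {F : V → V → ℝ} {ε : ℝ} (hε : 0 < ε) {M : ℕ} (π : V → ℕ)
    (hπ : ∀ x, π x < M) (hcut : ¬ Cut (fun x y => F x y - stp F π x y) ε) :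
    ∃ π' : V → ℕ, (∀ x, π' x < M * 4) ∧ (∀ x y, π' x = π' y → π x = π y) ∧
      en F π + ε ^ 2 * (Fintype.card V : ℝ) ^ 2 ≤ en F π' := by
  unfold Cut at hcut
  push Not at hcut
  obtain ⟨S, T, hST⟩ := hcut
  set n : ℝ := (Fintype.card V : ℝ) with hn
  have hn0 : 0 < n := by
    rcases Nat.eq_zero_or_pos (Fintype.card V) with h | h
    · exfalso
      have : IsEmpty V := Fintype.card_eq_zero_iff.1 h
      have hS : S = ∅ := Finset.eq_empty_of_isEmpty S
      rw [hS] at hST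
      simp only [sum_empty, abs_zero] at hST
      have : 0 ≤ ε * n ^ 2 := by positivity
      linarith
    · rw [hn]; exact_mod_cast h
  let π' : V → ℕ := fun x => 4 * π x + (2 * (if x ∈ S then 1 else 0) + (if x ∈ T then 1 else 0))
  have hπ'lt : ∀ x, (2 * (if x ∈ S then 1 else 0) + (if x ∈ T then 1 else 0) : ℕ) < 4 := by
    intro x
    split_ifs <;> norm_num
  have href : ∀ x y, π' x = π' y → π x = π y ∧ (x ∈ S ↔ y ∈ S) ∧ (x ∈ T ↔ y ∈ T) := by
    intro x y hxy
    have h1 := hπ'lt x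
    have h2 := hπ'lt y
    simp only [π'] at hxy
    refine ⟨by omega, ?_, ?_⟩
    · by_cases a1 : x ∈ S <;> by_cases a2 : y ∈ S <;> by_cases a3 : x ∈ T <;>
        by_cases a4 : y ∈ T <;> simp only [a1, a2, a3, a4, if_true, if_false] at hxy ⊢ <;> omega
    · by_cases a1 : x ∈ S <;> by_cases a2 : y ∈ S <;> by_cases a3 : x ∈ T <;>
        by_cases a4 : y ∈ T <;> simp only [a1, a2, a3, a4, if_true, if_false] at hxy ⊢ <;> omega
  refine ⟨π', ?_, fun x y h => (href x y h).1, ?_⟩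
  · intro x
    have h1 := hπ'lt x
    have h2 := hπ x
    simp only [π']
    omega
  · let g : V × V → ℝ := fun p => if p.1 ∈ S ∧ p.2 ∈ T then 1 else 0
    have hg : ∀ p q : V × V, (π' p.1, π' p.2) = (π' q.1, π' q.2) → g p = g q := by
      intro p q hpq
      simp only [Prod.mk.injEq] at hpq
      have h1 := (href _ _ hpq.1).2.1
      have h2 := (href _ _ hpq.2).2.2
      simp only [g, h1, h2]
    have h1 : ∑ x ∈ S, ∑ y ∈ T, (F x y - stp F π x y) =
        ∑ p : V × V, (stp F π' p.1 p.2 - stp F π p.1 p.2) * g p := by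
      have e1 : ∑ p : V × V, (stp F π' p.1 p.2 - stp F π p.1 p.2) * g p =
          ∑ p : V × V, (F p.1 p.2 - stp F π p.1 p.2) * g p := by
        have e2 := avg_inner (fun p : V × V => F p.1 p.2) g (fun p : V × V => (π' p.1, π' p.2)) hg
        have e3 : ∀ p : V × V, avg (fun p : V × V => F p.1 p.2)
            (fun p : V × V => (π' p.1, π' p.2)) p = stp F π' p.1 p.2 := fun p => rfl
        simp only [e3] at e2
        simp only [sub_mul, sum_sub_distrib]
        rw [e2]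
      rw [e1, Fintype.sum_prod_type]
      simp only [g]
      rw [← Finset.sum_filter_add_sum_filter_not univ (fun x => x ∈ S)
        (fun x => ∑ y, (F x y - stp F π x y) * (if x ∈ S ∧ y ∈ T then 1 else 0))]
      have e4 : ∑ x ∈ univ.filter (fun x => ¬ x ∈ S),
          ∑ y, (F x y - stp F π x y) * (if x ∈ S ∧ y ∈ T then (1 : ℝ) else 0) = 0 := by
        refine sum_eq_zero fun x hx => sum_eq_zero fun y _ => ?_
        rw [mem_filter] at hx
        simp [hx.2]
      rw [e4, add_zero, filter_mem_eq_inter, univ_inter]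
      refine sum_congr rfl fun x hx => ?_
      have e5 : ∀ y, (F x y - stp F π x y) * (if x ∈ S ∧ y ∈ T then (1 : ℝ) else 0) =
          if y ∈ T then F x y - stp F π x y else 0 := by
        intro y
        by_cases hy : y ∈ T <;> simp [hx, hy]
      simp only [e5]
      rw [← sum_filter, filter_mem_eq_inter, univ_inter]
    have h2 := sum_mul_sq_le_sq_mul_sq (s := (univ : Finset (V × V)))
      (f := fun p => stp F π' p.1 p.2 - stp F π p.1 p.2) (g := g)
    rw [en_sub F π π' (fun x y h => (href x y h).1), ← h1] at h2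
    have h3 : ∑ p : V × V, g p ^ 2 ≤ n ^ 2 := by
      calc ∑ p : V × V, g p ^ 2 ≤ ∑ p : V × V, (1 : ℝ) := by
            refine sum_le_sum fun p _ => ?_
            simp only [g]
            split_ifs <;> norm_num
        _ = n ^ 2 := by simp [sq, hn]
    have h4 : (ε * n ^ 2) ^ 2 ≤ (∑ x ∈ S, ∑ y ∈ T, (F x y - stp F π x y)) ^ 2 := by
      rw [← sq_abs (∑ x ∈ S, ∑ y ∈ T, (F x y - stp F π x y))]
      exact pow_le_pow_left₀ (by positivity) hST.le 2
    have h5 : 0 ≤ en F π' - en F π := by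
      rw [← en_sub F π π' (fun x y h => (href x y h).1)]
      exact sum_nonneg fun _ _ => sq_nonneg _
    have h6 : (ε * n ^ 2) ^ 2 ≤ (en F π' - en F π) * n ^ 2 :=
      h4.trans (h2.trans (mul_le_mul_of_nonneg_left h3 h5))
    have h7 : ε ^ 2 * n ^ 2 * n ^ 2 ≤ (en F π' - en F π) * n ^ 2 := by
      calc ε ^ 2 * n ^ 2 * n ^ 2 = (ε * n ^ 2) ^ 2 := by ring
        _ ≤ _ := h6
    have h8 : ε ^ 2 * n ^ 2 ≤ en F π' - en F π := le_of_mul_le_mul_right h7 (by positivity)
    linarith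

/-- The weak regularity lemma of Frieze and Kannan. -/
theorem weak [DecidableEq V] {F : V → V → ℝ} (h0 : ∀ x y, 0 ≤ F x y) (h1 : ∀ x y, F x y ≤ 1)
    {ε : ℝ} (hε : 0 < ε) {K : ℕ} (hK : 1 < K * ε ^ 2) {M : ℕ} (π : V → ℕ) (hπ : ∀ x, π x < M) :
    ∃ π' : V → ℕ, (∀ x, π' x < M * 4 ^ K) ∧ (∀ x y, π' x = π' y → π x = π y) ∧
      Cut (fun x y => F x y - stp F π' x y) ε := by
  by_contra hcon
  push Not at hcon
  have key : ∀ k ≤ K, ∃ π' : V → ℕ, (∀ x, π' x < M * 4 ^ k) ∧
      (∀ x y, π' x = π' y → π x = π y) ∧ (k : ℝ) * ε ^ 2 * (Fintype.card V : ℝ) ^ 2 ≤ en F π' := by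
    intro k
    induction k with
    | zero =>
      intro _
      refine ⟨π, by simpa using hπ, fun x y h => h, ?_⟩
      simp only [Nat.cast_zero, zero_mul]
      exact en_nonneg _ _
    | succ k ih =>
      intro hk
      obtain ⟨π₁, hlt, href, hen⟩ := ih (by omega)
      have hnc : ¬ Cut (fun x y => F x y - stp F π₁ x y) ε := by
        refine hcon π₁ (fun x => (hlt x).trans_le ?_) href
        exact Nat.mul_le_mul_left _ (Nat.pow_le_pow_right (by norm_num) (by omega))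
      obtain ⟨π₂, h2lt, h2ref, h2en⟩ := refine_step hε π₁ hlt hnc
      refine ⟨π₂, fun x => ?_, fun x y h => href _ _ (h2ref _ _ h), ?_⟩
      · have := h2lt x
        rw [pow_succ, ← mul_assoc]
        exact this
      · push_cast
        linarith
  obtain ⟨π', hlt, href, hen⟩ := key K le_rfl
  have hnc := hcon π' hlt href
  have hle := en_le h0 h1 π'
  rcases Nat.eq_zero_or_pos (Fintype.card V) with hz | hz
  · apply hnc
    intro S T
    have : IsEmpty V := Fintype.card_eq_zero_iff.1 hz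
    rw [Finset.eq_empty_of_isEmpty S]
    simp only [sum_empty, abs_zero]
    positivity
  · have hn : 0 < (Fintype.card V : ℝ) := by exact_mod_cast hz
    have : (Fintype.card V : ℝ) ^ 2 < (K : ℝ) * ε ^ 2 * (Fintype.card V : ℝ) ^ 2 := by
      have h3 : 0 < (Fintype.card V : ℝ) ^ 2 := by positivity
      nlinarith
    linarith

/-- The numbers of labels in the proof of `strong`. -/
noncomputable def seqM (φ : ℕ → ℝ) : ℕ → ℕ
  | 0 => 1
  | i + 1 => seqM φ i * 4 ^ (⌈1 / φ (seqM φ i) ^ 2⌉₊ + 1)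

lemma seqM_pos (φ : ℕ → ℝ) (i : ℕ) : 1 ≤ seqM φ i := by
  induction i with
  | zero => simp [seqM]
  | succ i ih =>
    rw [seqM]
    exact Nat.mul_pos ih (by positivity)

/-- **A two-scale form of the weak regularity lemma.** -/
theorem strong {ε₀ : ℝ} (hε : 0 < ε₀) (φ : ℕ → ℝ) (hφ : ∀ m, 0 < φ m) :
    ∃ Mmax : ℕ, ∀ (V : Type) [Fintype V] [DecidableEq V] (F : V → V → ℝ),
      (∀ x y, 0 ≤ F x y) → (∀ x y, F x y ≤ 1) →
      ∃ M : ℕ, 1 ≤ M ∧ M ≤ Mmax ∧ ∃ π : V → ℕ, (∀ x, π x < M) ∧ ∃ Q : V → V → ℝ,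
        ∑ p : V × V, |Q p.1 p.2 - stp F π p.1 p.2| ≤ ε₀ * (Fintype.card V : ℝ) ^ 2 ∧
        Cut (fun x y => F x y - Q x y) (φ M) := by
  obtain ⟨L, hL⟩ := exists_nat_gt (1 / ε₀ ^ 2)
  have hL' : 1 < L * ε₀ ^ 2 := by
    rwa [div_lt_iff₀ (by positivity)] at hL
  refine ⟨∑ i ∈ range (L + 1), seqM φ i, ?_⟩
  intro V _ _ F h0 h1
  by_contra hcon
  push Not at hcon
  have key : ∀ i ≤ L, ∃ π : V → ℕ, (∀ x, π x < seqM φ i) ∧
      (i : ℝ) * ε₀ ^ 2 * (Fintype.card V : ℝ) ^ 2 ≤ en F π := by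
    intro i
    induction i with
    | zero =>
      intro _
      refine ⟨fun _ => 0, fun x => by simp [seqM], ?_⟩
      simp only [Nat.cast_zero, zero_mul]
      exact en_nonneg _ _
    | succ i ih =>
      intro hi
      obtain ⟨π, hlt, hen⟩ := ih (by omega)
      have hpos := hφ (seqM φ i)
      have hK : 1 < ((⌈1 / φ (seqM φ i) ^ 2⌉₊ + 1 : ℕ) : ℝ) * φ (seqM φ i) ^ 2 := by
        have h3 := Nat.le_ceil (1 / φ (seqM φ i) ^ 2)
        rw [div_le_iff₀ (by positivity)] at h3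
        have h4 : 0 < φ (seqM φ i) ^ 2 := by positivity
        push_cast
        linarith
      obtain ⟨π', hlt', href, hcut⟩ := weak h0 h1 hpos hK π hlt
      have h5 := hcon (seqM φ i) (seqM_pos φ i)
        (single_le_sum (f := fun i => seqM φ i) (fun _ _ => Nat.zero_le _)
          (mem_range.2 (by omega))) π hlt (fun x y => stp F π' x y)
      have h6 : ε₀ * (Fintype.card V : ℝ) ^ 2 <
          ∑ p : V × V, |stp F π' p.1 p.2 - stp F π p.1 p.2| := by
        by_contra hle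
        exact h5 (not_lt.1 hle) hcut
      refine ⟨π', ?_, ?_⟩
      · intro x
        rw [seqM]
        exact hlt' x
      · have h7 := sum_mul_sq_le_sq_mul_sq (s := (univ : Finset (V × V)))
          (f := fun p => |stp F π' p.1 p.2 - stp F π p.1 p.2|) (g := fun _ => 1)
        simp only [mul_one, sq_abs, one_pow, sum_const, card_univ, Fintype.card_prod,
          nsmul_eq_mul, Nat.cast_mul] at h7
        rw [en_sub F π π' href] at h7
        have hn : 0 ≤ (Fintype.card V : ℝ) := Nat.cast_nonneg _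
        have hn0 : 0 < (Fintype.card V : ℝ) := by
          rcases hn.eq_or_lt with h | h
          · exfalso
            have : IsEmpty V := Fintype.card_eq_zero_iff.1 (by exact_mod_cast h.symm)
            rw [← h] at h6
            simp only [univ_eq_empty, sum_empty] at h6
            norm_num at h6
          · exact h
        have h8 : (ε₀ * (Fintype.card V : ℝ) ^ 2) ^ 2 ≤
            (∑ p : V × V, |stp F π' p.1 p.2 - stp F π p.1 p.2|) ^ 2 :=
          pow_le_pow_left₀ (by positivity) h6.le 2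
        have h9 : ε₀ ^ 2 * (Fintype.card V : ℝ) ^ 2 * ((Fintype.card V : ℝ) * Fintype.card V) ≤
            (en F π' - en F π) * ((Fintype.card V : ℝ) * Fintype.card V) := by
          calc _ = (ε₀ * (Fintype.card V : ℝ) ^ 2) ^ 2 := by ring
            _ ≤ _ := h8
            _ ≤ _ := h7
        have h10 : ε₀ ^ 2 * (Fintype.card V : ℝ) ^ 2 ≤ en F π' - en F π :=
          le_of_mul_le_mul_right h9 (by positivity)
        push_cast
        linarith
  obtain ⟨π, hlt, hen⟩ := key L le_rfl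
  have hle := en_le h0 h1 π
  rcases Nat.eq_zero_or_pos (Fintype.card V) with hz | hz
  · have : IsEmpty V := Fintype.card_eq_zero_iff.1 hz
    refine hcon 1 le_rfl ?_ (fun _ => 0) (fun _ => by norm_num) (fun _ _ => 0) ?_ ?_
    · have := single_le_sum (f := fun i => seqM φ i) (s := range (L + 1))
        (fun _ _ => Nat.zero_le _) (mem_range.2 (by omega : 0 < L + 1))
      simpa [seqM] using this
    · simp only [univ_eq_empty, sum_empty]
      positivity
    · intro S T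
      rw [Finset.eq_empty_of_isEmpty S]
      simp only [sum_empty, abs_zero]
      have := hφ 1
      positivity
  · have hn : 0 < (Fintype.card V : ℝ) := by exact_mod_cast hz
    have : (Fintype.card V : ℝ) ^ 2 < (L : ℝ) * ε₀ ^ 2 * (Fintype.card V : ℝ) ^ 2 := by
      have h3 : 0 < (Fintype.card V : ℝ) ^ 2 := by positivity
      nlinarith
    linarith

/-! ### Cut norm and functions with values in `[0, 1]` -/

lemma Cut.fn_left [DecidableEq V] {R : V → V → ℝ} {ε : ℝ} (h : Cut R ε) (a : V → ℝ)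
    (a0 : ∀ x, 0 ≤ a x) (a1 : ∀ x, a x ≤ 1) (T : Finset V) :
    ∑ x, a x * ∑ y ∈ T, R x y ≤ ε * (Fintype.card V : ℝ) ^ 2 := by
  refine le_trans ?_ (le_trans (le_abs_self _)
    (h (univ.filter (fun x => 0 < ∑ y ∈ T, R x y)) T))
  rw [← sum_filter_add_sum_filter_not univ (fun x => 0 < ∑ y ∈ T, R x y)
    (fun x => a x * ∑ y ∈ T, R x y)]
  have h2 : ∑ x ∈ univ.filter (fun x => ¬ 0 < ∑ y ∈ T, R x y), a x * ∑ y ∈ T, R x y ≤ 0 := by
    refine sum_nonpos fun x hx => ?_
    rw [mem_filter] at hx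
    exact mul_nonpos_of_nonneg_of_nonpos (a0 x) (not_lt.1 hx.2)
  have h3 : ∑ x ∈ univ.filter (fun x => 0 < ∑ y ∈ T, R x y), a x * ∑ y ∈ T, R x y ≤
      ∑ x ∈ univ.filter (fun x => 0 < ∑ y ∈ T, R x y), ∑ y ∈ T, R x y := by
    refine sum_le_sum fun x hx => ?_
    rw [mem_filter] at hx
    have := a1 x
    have := hx.2
    nlinarith
  linarith

lemma Cut.fn_le [DecidableEq V] {R : V → V → ℝ} {ε : ℝ} (h : Cut R ε) (a b : V → ℝ)
    (a0 : ∀ x, 0 ≤ a x) (a1 : ∀ x, a x ≤ 1) (b0 : ∀ x, 0 ≤ b x) (b1 : ∀ x, b x ≤ 1) :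
    ∑ x, ∑ y, R x y * (a x * b y) ≤ ε * (Fintype.card V : ℝ) ^ 2 := by
  set T : Finset V := univ.filter (fun y => 0 < ∑ x, a x * R x y) with hT
  have h1 : ∑ x, ∑ y, R x y * (a x * b y) = ∑ y, b y * ∑ x, a x * R x y := by
    rw [sum_comm]
    refine sum_congr rfl fun y _ => ?_
    rw [mul_sum]
    exact sum_congr rfl fun x _ => by ring
  have h2 : ∑ y, b y * ∑ x, a x * R x y ≤ ∑ y ∈ T, ∑ x, a x * R x y := by
    rw [← sum_filter_add_sum_filter_not univ (fun y => 0 < ∑ x, a x * R x y)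
      (fun y => b y * ∑ x, a x * R x y)]
    have h3 : ∑ y ∈ univ.filter (fun y => ¬ 0 < ∑ x, a x * R x y), b y * ∑ x, a x * R x y ≤ 0 := by
      refine sum_nonpos fun y hy => ?_
      rw [mem_filter] at hy
      exact mul_nonpos_of_nonneg_of_nonpos (b0 y) (not_lt.1 hy.2)
    have h4 : ∑ y ∈ univ.filter (fun y => 0 < ∑ x, a x * R x y), b y * ∑ x, a x * R x y ≤
        ∑ y ∈ T, ∑ x, a x * R x y := by
      refine sum_le_sum fun y hy => ?_
      rw [mem_filter] at hy
      have := b1 y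
      have := hy.2
      nlinarith
    linarith
  have h5 : ∑ y ∈ T, ∑ x, a x * R x y = ∑ x, a x * ∑ y ∈ T, R x y := by
    rw [sum_comm]
    exact sum_congr rfl fun x _ => by rw [mul_sum]
  rw [h1]
  exact h2.trans (h5 ▸ h.fn_left a a0 a1 T)

lemma Cut.neg {R : V → V → ℝ} {ε : ℝ} (h : Cut R ε) : Cut (fun x y => - R x y) ε := by
  intro S T
  have := h S T
  simp only [sum_neg_distrib, abs_neg]
  exact this

lemma Cut.fn_abs [DecidableEq V] {R : V → V → ℝ} {ε : ℝ} (h : Cut R ε) (a b : V → ℝ)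
    (a0 : ∀ x, 0 ≤ a x) (a1 : ∀ x, a x ≤ 1) (b0 : ∀ x, 0 ≤ b x) (b1 : ∀ x, b x ≤ 1) :
    |∑ x, ∑ y, R x y * (a x * b y)| ≤ ε * (Fintype.card V : ℝ) ^ 2 := by
  rw [abs_le]
  constructor
  · have h1 := h.neg.fn_le a b a0 a1 b0 b1
    have h2 : ∑ x, ∑ y, -R x y * (a x * b y) = - ∑ x, ∑ y, R x y * (a x * b y) := by
      simp only [neg_mul, sum_neg_distrib]
    rw [h2] at h1
    linarith
  · exact h.fn_le a b a0 a1 b0 b1

end Pool.Agent.H62.BR
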